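import Pool.Agent.Y133.Half.HRPred
import Pool.Agent.Y121.AH.HR
import Pool.Agent.Y121.AHS.Conv

/-!
# The index law for the Hodge classes and the classes of algebraic cycles
-/

open CategoryTheory AlgebraicGeometry Filter Topology

open scoped ENNReal

universe u v

namespace Pool.Agent.Q60.HI

open Module
open Pool.Agent.H914 Pool.Agent.H914.VarClass Pool.Agent.H914.VarClass.Obj
  Pool.Agent.H914.WeilCohomology Pool.Agent.W458.MF Pool.Agent.W536.RR Pool.Agent.H281R3.HT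
open Pool.Agent.Y133.Half (ClassPred cycRank dimOf pwIso129 homEqNum_iff algSys eq_alg_iff algDim
  AtMostHalf Sys algDim_pw' algDim_eq)
open Pool.Agent.Y133.Half.ClassPred (alg_le sp_eq_iff)
open Pool.Agent.Y129 (pw genBy)
open Pool.Agent.Y121 (AHS.HodgeTheory AHS.IsHodge AHS.hodgeDim AHS.toH)

variable {k : Type u} [Field k] {𝒱 : VarClass k} {ops : CycleOps 𝒱}
  {W : WeilCohomology.{u, v} ops}

/-- **The index and half law** for a class of cohomology classes with nondegenerate pairing. -/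
theorem nondeg_index (Q : ClassPred W) (hnd : ∀ X, Sys.Nondeg Q.sys X) (X : 𝒱.Obj)
    [Nontrivial (W.H X)] : ∃ N : ℕ∞, 1 ≤ N ∧
      Tendsto (fun n => (dimOf W {c | ∃ j, Q.P (pw X n) j c} : ℝ≥0∞) /
        cycRank ops (pw X n)) atTop (𝓝 (N : ℝ≥0∞)) ∧
      (∀ n, (dimOf W {c | ∃ j, Q.P (pw X (2 * n + 1)) j c} : ℝ≥0∞) /
        cycRank ops (pw X (2 * n + 1)) ≤ (N : ℝ≥0∞)) ∧
      (N = 1 ↔ ∀ n j c, Q.P (pw X n) j c → c ∈ spanCycles W (pw X n) j) ∧
      (N ≠ 1 → AtMostHalf (fun n => algDim W (pw X n))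
        (fun n => dimOf W {c | ∃ j, Q.P (pw X n) j c})) ∧
      (N ≠ ⊤ → (∀ n, HomEqNum W (pw X n)) ∧
        ∃ (r : ℕ) (c : Fin r → Σ m, W.H (pw X m)), (r : ℕ∞) + 1 ≤ N ∧
          (∀ i, ∃ j, Q.P (pw X (c i).1) j (c i).2) ∧
          ∀ n j z, Q.P (pw X n) j z → z ∈ genBy W X c n) := by
  obtain ⟨N, h1, h2, h3, h4, h5⟩ := Q.index X
  have h4' : N = 1 ↔ ∀ n j c, Q.P (pw X n) j c → c ∈ spanCycles W (pw X n) j := by
    rw [h4]
    constructor
    · intro h n j c hc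
      exact (h n).1 j c hc
    · intro h n
      refine ⟨fun j c hc => h n j c hc, ?_⟩
      rw [homEqNum_iff, eq_bot_iff]
      intro c hc
      obtain ⟨hc1, hc2⟩ := hc
      rw [Submodule.mem_bot]
      have e1 := (sp_eq_iff (Q := Q) (pw X n)).2 (h n)
      refine hnd (pw X n) c (alg_le hc1) fun y hy => hc2 y ?_
      rw [e1] at hy
      exact hy
  refine ⟨N, h1, h2, h3, h4', ?_, h5⟩
  intro hN ε hε
  rcases (algSys W).half Q.sys (fun _ => alg_le) X (fun n => hnd _) with h | h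
  · exfalso
    apply hN
    rw [h4']
    intro n
    have e1 : Q.sys.C (pw X n) = algSpan W (pw X n) := by
      apply (eq_alg_iff (T := Q.sys) (fun Z => alg_le) _).2
      have h7 := (eq_alg_iff (T := Q.sys) (fun Z => alg_le) _).1 (h n).symm
      have h8 := Q.dim_pw X n
      have h9 := algDim_pw' (W := W) X n
      rw [algDim_eq] at h9
      rw [h9, ← h7]
      exact h8
    exact (sp_eq_iff (Q := Q) (pw X n)).1 e1
  · obtain ⟨n₀, hn₀⟩ := h ε hε
    refine ⟨n₀, fun n hn => ?_⟩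
    change (algDim W (pw X n) : ℝ) ≤ (1 / 2 + ε) *
      (dimOf W {c | ∃ j, Q.P (pw X n) j c} : ℝ)
    rw [Q.dim_pw X n, algDim_pw']
    exact hn₀ n hn

variable {T : AHS.HodgeTheory ops}

/-- **The index law for Hodge classes.** -/
theorem hodge_index (T : AHS.HodgeTheory ops) (X : 𝒱.Obj) [Nontrivial (T.W.H X)] :
    ∃ N : ℕ∞, 1 ≤ N ∧
      Tendsto (fun n => (AHS.hodgeDim T (pw X n) : ℝ≥0∞) / cycRank ops (pw X n)) atTop
        (𝓝 (N : ℝ≥0∞)) ∧
      (∀ n, (AHS.hodgeDim T (pw X (2 * n + 1)) : ℝ≥0∞) / cycRank ops (pw X (2 * n + 1)) ≤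
        (N : ℝ≥0∞)) ∧
      (N = 1 ↔ ∀ n j c, AHS.IsHodge T (pw X n) j c → c ∈ spanCycles T.W (pw X n) j) ∧
      (N ≠ 1 → AtMostHalf (fun n => algDim T.W (pw X n)) (fun n => AHS.hodgeDim T (pw X n))) ∧
      (N ≠ ⊤ → (∀ n, HomEqNum T.W (pw X n)) ∧
        ∃ (r : ℕ) (c : Fin r → Σ m, T.W.H (pw X m)), (r : ℕ∞) + 1 ≤ N ∧
          (∀ i, ∃ j, AHS.IsHodge T (pw X (c i).1) j (c i).2) ∧
          ∀ n j z, AHS.IsHodge T (pw X n) j z → z ∈ genBy T.W X c n) := by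
  have hnt : Nontrivial ((AHS.toH T).W.H X) := ‹Nontrivial (T.W.H X)›
  exact nondeg_index (Pool.Agent.Y121.AH.hodgePred (AHS.toH T))
    (fun X x hx h => Pool.Agent.Y121.AH.hodge_nondeg hx h) X

end Pool.Agent.Q60.HI
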